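import Pool.Agent.Helper44.FP.Stmts

/-!
# Module BUMP: pairwise disjoint bumps close to given points
-/

namespace Pool.Agent.Helper64.FP

open scoped Topology

universe v

theorem bump_choice {X : Type v} : ∀ (n : ℕ) (S : Fin n → Set X), (∀ i, (S i).Infinite) →
    ∃ p : Fin n → X, Function.Injective p ∧ ∀ i, p i ∈ S i := by
  intro n
  induction n with
  | zero => exact fun S _ => ⟨fun i => i.elim0, fun i => i.elim0, fun i => i.elim0⟩
  | succ n ih =>
    intro S hS
    obtain ⟨p, hp, hpS⟩ := ih (fun i => S i.castSucc) fun i => hS _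
    obtain ⟨q, hq, hq2⟩ := (hS (Fin.last n)).exists_notMem_finite (Set.finite_range p)
    refine ⟨Fin.snoc p q, ?_, ?_⟩
    · intro a b hab
      induction a using Fin.lastCases with
      | last =>
        induction b using Fin.lastCases with
        | last => rfl
        | cast b =>
          rw [Fin.snoc_last, Fin.snoc_castSucc] at hab
          exact absurd ⟨b, hab.symm⟩ hq2
      | cast a =>
        induction b using Fin.lastCases with
        | last =>
          rw [Fin.snoc_last, Fin.snoc_castSucc] at hab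
          exact absurd ⟨a, hab⟩ hq2
        | cast b =>
          rw [Fin.snoc_castSucc, Fin.snoc_castSucc] at hab
          rw [hp hab]
    · intro i
      induction i using Fin.lastCases with
      | last => rw [Fin.snoc_last]; exact hq
      | cast i => rw [Fin.snoc_castSucc]; exact hpS i

/-- Module BUMP. -/
theorem BUMP_proof : Pool.Agent.Helper44.FP.ST_BUMP.{v} := by
  intro X _ _ hX G ω hω J m x
  -- radius of continuity
  have hr : ∃ r : ℝ, 0 < r ∧ ∀ j, ∀ f ∈ G, ∀ z, dist z (x j) < 2 * r →
      |f z - f (x j)| ≤ ω := by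
    have h1 : ∀ᶠ r in 𝓝[>] (0 : ℝ), ∀ j, ∀ f : G, ∀ z, dist z (x j) < 2 * r →
        |(f : C(X, ℝ)) z - (f : C(X, ℝ)) (x j)| ≤ ω := by
      rw [Filter.eventually_all]
      intro j
      rw [Filter.eventually_all]
      intro f
      obtain ⟨δ, hδ, h2⟩ := Metric.continuousAt_iff.1 ((f : C(X, ℝ)).continuous.continuousAt
        (x := x j)) ω hω
      filter_upwards [Ioo_mem_nhdsGT (half_pos hδ)] with r hr z hz
      have h3 := h2 (show dist z (x j) < δ by linarith [hr.2])
      rw [Real.dist_eq] at h3
      exact h3.le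
    obtain ⟨r, hr1, hr2⟩ := (h1.and self_mem_nhdsWithin).exists
    exact ⟨r, hr2, fun j f hf => hr1 j ⟨f, hf⟩⟩
  obtain ⟨r, hr0, hr⟩ := hr
  -- distinct points
  obtain ⟨p0, hp0, hp0S⟩ := bump_choice (m * J)
    (fun i => Metric.ball (x (finProdFinEquiv.symm i).2) r) (fun i => by
      have := hX (x (finProdFinEquiv.symm i).2)
      exact infinite_of_mem_nhds _ (Metric.ball_mem_nhds _ hr0))
  set p : Fin m × Fin J → X := fun a => p0 (finProdFinEquiv a) with hpd
  have hp : Function.Injective p := hp0.comp finProdFinEquiv.injective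
  have hpS : ∀ a, dist (p a) (x a.2) < r := by
    intro a
    have h1 := hp0S (finProdFinEquiv a)
    rw [Equiv.symm_apply_apply] at h1
    exact h1
  -- small radius
  have hρ : ∃ ρ : ℝ, 0 < ρ ∧ 2 * ρ ≤ r ∧ ∀ a b, a ≠ b → 4 * ρ ≤ dist (p a) (p b) := by
    have h1 : ∀ᶠ ρ in 𝓝[>] (0 : ℝ), ∀ a b, a ≠ b → 4 * ρ ≤ dist (p a) (p b) := by
      rw [Filter.eventually_all]
      intro a
      rw [Filter.eventually_all]
      intro b
      by_cases hab : a = b
      · exact Filter.Eventually.of_forall fun ρ h => absurd hab h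
      · have h2 : 0 < dist (p a) (p b) / 4 := by
          have : 0 < dist (p a) (p b) := dist_pos.2 fun h => hab (hp h)
          linarith
        filter_upwards [Ioo_mem_nhdsGT h2] with ρ hρ _
        linarith [hρ.2]
    have h2 : ∀ᶠ ρ in 𝓝[>] (0 : ℝ), 2 * ρ ≤ r := by
      filter_upwards [Ioo_mem_nhdsGT (half_pos hr0)] with ρ hρ
      linarith [hρ.2]
    obtain ⟨ρ, ⟨h3, h4⟩, h5⟩ := ((h1.and h2).and self_mem_nhdsWithin).exists
    exact ⟨ρ, h5, h4, h3⟩
  obtain ⟨ρ, hρ0, hρr, hρd⟩ := hρ
  have hcd : ∀ a : Fin m × Fin J, Continuous fun z : X => dist z (p a) / ρ := fun a =>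
    (continuous_id.dist continuous_const).div_const ρ
  have hkp : ∀ a z, max 0 (min 1 (2 - dist z (p a) / ρ)) ≠ 0 → dist z (p a) < 2 * ρ := by
    intro a z h
    by_contra h1
    apply h
    rw [not_lt] at h1
    apply max_eq_left
    refine (min_le_right _ _).trans ?_
    have : 2 ≤ dist z (p a) / ρ := by rw [le_div_iff₀ hρ0]; exact h1
    linarith
  refine ⟨fun k j => ⟨fun z => max 0 (1 - dist z (p (k, j)) / ρ),
      continuous_const.max (continuous_const.sub (hcd _))⟩,
    fun k j => ⟨fun z => max 0 (min 1 (2 - dist z (p (k, j)) / ρ)),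
      continuous_const.max (continuous_const.min (continuous_const.sub (hcd _)))⟩, ?_, ?_, ?_⟩
  · intro k j
    refine ⟨?_, ?_, ?_, ?_, ?_, ?_⟩
    · intro z
      exact le_max_left _ _
    · intro z
      change max 0 (1 - dist z (p (k, j)) / ρ) ≤ (1 : ℝ)
      refine max_le zero_le_one ?_
      have : 0 ≤ dist z (p (k, j)) / ρ := div_nonneg dist_nonneg hρ0.le
      linarith
    · intro h
      have h1 := congrArg (fun f : C(X, ℝ) => f (p (k, j))) h
      simp at h1
    · intro z
      exact le_max_left _ _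
    · intro z
      exact max_le zero_le_one (min_le_left _ _)
    · ext z
      change max 0 (min 1 (2 - dist z (p (k, j)) / ρ)) * max 0 (1 - dist z (p (k, j)) / ρ) =
        max 0 (1 - dist z (p (k, j)) / ρ)
      rcases le_total (dist z (p (k, j)) / ρ) 1 with h1 | h1
      · have h2 : min 1 (2 - dist z (p (k, j)) / ρ) = 1 := min_eq_left (by linarith)
        rw [h2, max_eq_right zero_le_one, one_mul]
      · have h2 : max 0 (1 - dist z (p (k, j)) / ρ) = 0 := max_eq_left (by linarith)
        rw [h2, mul_zero]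
  · intro k j f hf z hz
    have h1 := hkp (k, j) z hz
    refine hr j f hf z ?_
    have h2 := hpS (k, j)
    have h3 := dist_triangle z (p (k, j)) (x j)
    simp only at h2
    linarith
  · intro k j k' j' hne
    ext z
    change max 0 (min 1 (2 - dist z (p (k, j)) / ρ)) *
      max 0 (min 1 (2 - dist z (p (k', j')) / ρ)) = 0
    by_contra h
    have h1 := hkp (k, j) z (left_ne_zero_of_mul h)
    have h2 := hkp (k', j') z (right_ne_zero_of_mul h)
    have h3 := hρd _ _ hne
    have h4 := dist_triangle_left (p (k, j)) (p (k', j')) z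
    linarith

end Pool.Agent.Helper64.FP
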